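import Pool.Agent.K3h2.LT.Stm

set_option autoImplicit false

/-! # Brick NEG of project LT of helper2 -/

namespace Pool.Agent.K3h69.LT

open Pool.Agent.K3h2.LT

theorem t_NEG : S_NEG := by
  intro L B g h hL hg hgs hh heq
  have hB : 0 ≤ B := (abs_nonneg _).trans (hh 0)
  obtain ⟨f, hf⟩ : ∃ f : ℤ → ℝ, ∀ k, f k = g k * h k := ⟨fun k => g k * h k, fun k => rfl⟩
  have hfb : ∀ k, |f k| ≤ B * g k := by
    intro k
    rw [hf, abs_mul, abs_of_pos (hg k).1, mul_comm]
    exact mul_le_mul_of_nonneg_right (hh k) (hg k).1.le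
  have hfb2 : ∀ k, |f k| ≤ B * L := fun k =>
    (hfb k).trans (mul_le_mul_of_nonneg_left (hg k).2.le hB)
  have ha : Summable fun k => f k ^ 2 := by
    refine Summable.of_nonneg_of_le (fun k => sq_nonneg _) (fun k => ?_) (hgs.mul_left (B * L * B))
    rw [← sq_abs, sq]
    calc |f k| * |f k| ≤ (B * L) * (B * g k) :=
          mul_le_mul (hfb2 k) (hfb k) (abs_nonneg _) (by positivity)
      _ = _ := by ring
  have hb : Summable fun k => f k * f (k + 1) := by
    refine Summable.of_norm_bounded (hgs.mul_left (B * L * B)) (fun k => ?_)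
    rw [Real.norm_eq_abs, abs_mul]
    have hg0 := (hg k).1
    calc |f k| * |f (k + 1)| ≤ (B * g k) * (B * L) :=
          mul_le_mul (hfb k) (hfb2 (k + 1)) (abs_nonneg _) (by positivity)
      _ = _ := by ring
  obtain ⟨A, hA⟩ := ha
  obtain ⟨b, hb⟩ := hb
  have hA' : HasSum (fun k => f (k + 1) ^ 2) A := (Equiv.addRight (1 : ℤ)).hasSum_iff.2 hA
  have hb' : HasSum (fun k => f (k - 1) * f k) b := by
    have h1 := (Equiv.subRight (1 : ℤ)).hasSum_iff.2 hb
    have h2 : (fun k => f k * f (k + 1)) ∘ ⇑(Equiv.subRight (1 : ℤ)) =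
        fun k => f (k - 1) * f k := by
      funext k
      show f (k - 1) * f (k - 1 + 1) = _
      rw [sub_add_cancel]
    rwa [h2] at h1
  have h1 : 0 ≤ A + A + 2 * b := by
    have h2 := (hA.add hA').add (hb.mul_left 2)
    refine HasSum.nonneg (fun k => ?_) h2
    nlinarith [sq_nonneg (f k + f (k + 1))]
  have hT := (((hb'.add hA).add hb).neg).sub hA
  have hTe : ∀ k, -(f (k - 1) * f k + f k ^ 2 + f k * f (k + 1)) - f k ^ 2 =
      g k * h k ^ 2 * (L - g k) := by
    intro k
    have h2 := heq k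
    rw [← hf, ← hf, ← hf] at h2
    have h3 : f k * (L * h k) = -(f (k - 1) * f k + f k ^ 2 + f k * f (k + 1)) := by
      rw [h2]
      ring
    rw [← h3, hf k]
    ring
  have hT0 : ∀ k, 0 ≤ -(f (k - 1) * f k + f k ^ 2 + f k * f (k + 1)) - f k ^ 2 := by
    intro k
    rw [hTe]
    have h2 := (hg k).1
    have h3 := (hg k).2
    have h4 : 0 < L - g k := by linarith
    positivity
  intro k
  have h2 := le_hasSum hT k fun j _ => hT0 j
  rw [hTe] at h2
  have h3 := (hg k).1
  have h4 : 0 < L - g k := by linarith [(hg k).2]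
  have h5 : g k * h k ^ 2 * (L - g k) ≤ 0 := by linarith
  by_contra h6
  have h7 : 0 < h k ^ 2 := by positivity
  have h8 : 0 < g k * h k ^ 2 * (L - g k) := by positivity
  linarith

end Pool.Agent.K3h69.LT
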